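import Pool.Agent.Y50.RD.Stm

/-! RD-NXT: the next word. -/

set_option autoImplicit false

namespace Pool.Agent.Y441.RD.Nxt

open Turing Pool.Agent.H333R3.DG Pool.Agent.Y50.RD

variable {Γ Λ : Type} [Inhabited Γ] [Inhabited Λ] [Fintype Γ] [Fintype Λ]

theorem mem_mrules (M : TM0.Machine Γ Λ) (v : List ℕ) (r : List ℕ × List ℕ) :
    r ∈ mrules M v ↔ ∃ (l : Λ) (i : Fin 3) (y x : TL Γ),
      r = ((lhs l i y x).map en, rhq M v l i y x) := by
  unfold mrules
  rw [List.mem_map]
  constructor
  · rintro ⟨p, -, rfl⟩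
    exact ⟨_, _, _, _, rfl⟩
  · rintro ⟨l, i, y, x, rfl⟩
    exact ⟨((l, i), (y, x)), by simp, rfl⟩

theorem find_none (M : TM0.Machine Γ Λ) (v : List ℕ) (b : ℕ) (w : List ℕ)
    (h : ∀ (l : Λ) (i : Fin 3) (c : ℕ), w.take 2 ≠ [en (sq l i : Sy Γ Λ), c]) :
    (mrules M v).find? (fun r => decide (r.1 = b :: w.take 2)) = none := by
  rw [List.find?_eq_none]
  intro r hr
  obtain ⟨l, i, y, x, rfl⟩ := (mem_mrules M v r).1 hr
  simp only [decide_eq_true_eq]
  intro he
  simp only [lhs, List.map_cons, List.map_nil, List.cons.injEq] at he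
  exact h l i _ he.2.symm

theorem find_some (M : TM0.Machine Γ Λ) (v : List ℕ) (l : Λ) (i : Fin 3) (y x : TL Γ) :
    (mrules M v).find? (fun r => decide (r.1 = (lhs l i y x).map en)) =
      some ((lhs l i y x).map en, rhq M v l i y x) := by
  have hs : ((mrules M v).find? (fun r => decide (r.1 = (lhs l i y x).map en))).isSome := by
    rw [List.find?_isSome]
    exact ⟨_, (mem_mrules M v _).2 ⟨l, i, y, x, rfl⟩, by simp⟩
  obtain ⟨r, hr⟩ := Option.isSome_iff_exists.1 hs
  have h1 := List.find?_some hr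
  have h2 := List.mem_of_find?_eq_some hr
  obtain ⟨l', i', y', x', rfl⟩ := (mem_mrules M v r).1 h2
  simp only [decide_eq_true_eq] at h1
  have h3 := map_en_inj h1
  simp only [lhs, List.cons.injEq, Sum.inl.injEq, Sum.inr.injEq, Prod.mk.injEq, and_true] at h3
  obtain ⟨rfl, ⟨rfl, rfl⟩, rfl⟩ := h3
  exact hr

theorem step1 (M : TM0.Machine Γ Λ) (v : List ℕ) :
    ∀ (A B : List (Sy Γ Λ)) (l : Λ) (i : Fin 3) (y x : TL Γ), heads A = 0 →
    nxt (mrules M v) ((A ++ lhs l i y x ++ B).map en) =
      A.map en ++ rhq M v l i y x ++ B.map en := by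
  intro A B l i y x
  induction A with
  | nil =>
    intro _
    have e : ([] ++ lhs l i y x ++ B).map en = en (.inl y : Sy Γ Λ) ::
        (en (sq l i : Sy Γ Λ) :: en (.inl x : Sy Γ Λ) :: B.map en) := by
      simp [lhs]
    rw [e, nxt]
    have k : en (.inl y : Sy Γ Λ) ::
        (en (sq l i : Sy Γ Λ) :: en (.inl x : Sy Γ Λ) :: B.map en).take 2 =
        (lhs l i y x).map en := by
      simp [lhs]
    rw [k, find_some]
    simp
  | cons a A ih =>
    intro hA
    have h1 : heads (Γ := Γ) (Λ := Λ) [a] = 0 ∧ heads A = 0 := by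
      have := heads_append [a] A
      rw [List.singleton_append, hA] at this
      omega
    obtain ⟨t, rest, ht⟩ : ∃ (t : TL Γ) (rest : List (Sy Γ Λ)),
        A ++ lhs l i y x ++ B = .inl t :: rest := by
      cases A with
      | nil => exact ⟨y, sq l i :: .inl x :: B, by simp [lhs]⟩
      | cons a' A' =>
        rcases a' with t | s
        · exact ⟨t, A' ++ lhs l i y x ++ B, by simp⟩
        · have := h1.2
          simp [heads] at this
    have e : (a :: A ++ lhs l i y x ++ B).map en = en a :: (A ++ lhs l i y x ++ B).map en := by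
      simp
    rw [e, nxt, find_none]
    · simp only
      rw [ih h1.2]
      simp
    · intro l' i' c hc
      rw [ht] at hc
      simp only [List.map_cons, List.take_succ_cons, List.cons.injEq] at hc
      have := en_inj hc.1
      simp at this

theorem step2 (M : TM0.Machine Γ Λ) (v : List ℕ) :
    ∀ w : List ℕ, (∀ (l : Λ) (i : Fin 3), en (sq l i : Sy Γ Λ) ∉ w) →
      nxt (mrules M v) w = w := by
  intro w
  induction w with
  | nil => intro _; rfl
  | cons b w ih =>
    intro h
    rw [nxt, find_none]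
    · simp only
      rw [ih fun l i hm => h l i (List.mem_cons_of_mem _ hm)]
    · intro l i c hc
      have h1 : en (sq l i : Sy Γ Λ) ∈ w.take 2 := by rw [hc]; simp
      exact h l i (List.mem_cons_of_mem _ (List.mem_of_mem_take h1))

theorem t : S_nxt := by
  intro Γ Λ _ _ _ _ M v
  exact ⟨step1 M v, step2 M v⟩

end Pool.Agent.Y441.RD.Nxt
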